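import Mathlib
import Pool.Agent.V11131.InvMon
import Pool.Agent.Results.MP_91a774_al.Undecidable

/-!
A finitely presented `E`-unitary special inverse monoid with right reversible prefix monoid whose
maximal group image has solvable word problem, and which has unsolvable word problem.
-/

set_option autoImplicit false

namespace Pool.Agent.Results.MP_ff4305_al.Undecidable

open Pool.Agent.V1119.Comp Pool.Agent.V11131.InvMon
open Pool.Agent.Results.MP_91a774_al.Undecidable (Gr z z_conj z_inl level level_mul level_one Pp gen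
  Idx closure_gen reversible wp_decidable yy yy_surj yy_wp)

section core

variable {H S : Type} [Group H] [Monoid S]

/-- the relations needed for normal forms -/
structure Dat (ι : H →* S) (T T' : S) {l : ℕ} (m : Fin l → H) (C : Fin l → S) : Prop where
  tt : T * T' = 1
  r3 : ∀ i h, C i * ι h = ι h * C i
  r4 : ∀ i, C i * T = T * ι (m i)
  r5 : ∀ i, T * C i = ι (m i) * T
  r6 : ∀ h, T * T * ι h = ι h * (T * T)
  r7 : ∀ h h', T * ι h * T * ι h' = ι h' * (T * ι h * T)

variable {ι : H →* S} {T T' : S} {l : ℕ} {m : Fin l → H} {C : Fin l → S}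

/-- normal forms -/
def nf (ι : H →* S) (T T' : S) (h₁ h₂ : H) : ℕ → S
  | 0 => ι h₁ * (T * ι h₂ * T')
  | n + 1 => ι h₁ * T * ι h₂ * T ^ n

lemma cancelT (d : Dat ι T T' m C) {a b : S} (h : a * T = b * T) : a = b := by
  have := congrArg (· * T') h
  simpa only [mul_assoc, d.tt, mul_one] using this

lemma gamma (d : Dat ι T T' m C) {n : H} (hn : n ∈ Submonoid.closure (Set.range m)) :
    ∃ γ : S, γ * T = T * ι n ∧ ∀ h, γ * ι h = ι h * γ := by
  induction hn using Submonoid.closure_induction with
  | mem x hx =>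
    obtain ⟨i, rfl⟩ := hx
    exact ⟨C i, d.r4 i, d.r3 i⟩
  | one => exact ⟨1, by rw [map_one, one_mul, mul_one], fun h => by rw [one_mul, mul_one]⟩
  | mul a b _ _ ha hb =>
    obtain ⟨γ, h1, h2⟩ := ha
    obtain ⟨δ, h3, h4⟩ := hb
    refine ⟨γ * δ, ?_, fun h => ?_⟩
    · rw [mul_assoc, h3, ← mul_assoc, h1, map_mul, mul_assoc]
    · rw [mul_assoc, h4, ← mul_assoc, h2, mul_assoc]

lemma gamma_eq (d : Dat ι T T' m C) {n : H} {γ : S} (h : γ * T = T * ι n) :
    T * ι n * T' = γ := by
  rw [← h, mul_assoc, d.tt, mul_one]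

lemma stepT (d : Dat ι T T' m C) (h₁ h₂ : H) (n : ℕ)
    (hn : n = 0 → h₂ ∈ Submonoid.closure (Set.range m)) :
    nf ι T T' h₁ h₂ n * T = nf ι T T' h₁ h₂ (n + 1) := by
  cases n with
  | zero =>
    obtain ⟨γ, h1, -⟩ := gamma d (hn rfl)
    rw [nf, nf, gamma_eq d h1, mul_assoc, h1, pow_zero, mul_one, mul_assoc]
  | succ n => rw [nf, nf, pow_succ]; simp only [mul_assoc]

lemma pow_even (d : Dat ι T T' m C) (r : ℕ) (h : H) : T ^ (2 * r) * ι h = ι h * T ^ (2 * r) := by
  rw [pow_mul, pow_two]
  exact ((show Commute (T * T) (ι h) from d.r6 h).pow_left r).eq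

lemma sqC (d : Dat ι T T' m C) (i : Fin l) : T * T * C i = C i * (T * T) := by
  rw [mul_assoc, d.r5, ← mul_assoc, ← d.r4, mul_assoc]

lemma pow_evenC (d : Dat ι T T' m C) (r : ℕ) (i : Fin l) :
    T ^ (2 * r) * C i = C i * T ^ (2 * r) := by
  rw [pow_mul, pow_two]
  exact ((show Commute (T * T) (C i) from sqC d i).pow_left r).eq

lemma stepA_zero (d : Dat ι T T' m C) (h₁ h₂ a : H)
    (hn : h₂ ∈ Submonoid.closure (Set.range m)) :
    nf ι T T' h₁ h₂ 0 * ι a = nf ι T T' (h₁ * a) h₂ 0 := by
  obtain ⟨γ, h1, h2⟩ := gamma d hn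
  rw [nf, nf, gamma_eq d h1, mul_assoc, h2, map_mul, mul_assoc]

lemma stepA_odd (d : Dat ι T T' m C) (h₁ h₂ a : H) (r : ℕ) :
    nf ι T T' h₁ h₂ (2 * r + 1) * ι a = nf ι T T' h₁ (h₂ * a) (2 * r + 1) := by
  rw [nf, nf, mul_assoc, pow_even d, map_mul]
  simp only [mul_assoc]

lemma stepA_even (d : Dat ι T T' m C) (h₁ h₂ a : H) (r : ℕ) :
    nf ι T T' h₁ h₂ (2 * r + 1 + 1) * ι a = nf ι T T' (h₁ * a) h₂ (2 * r + 1 + 1) := by
  rw [nf, nf, map_mul]
  calc ι h₁ * T * ι h₂ * T ^ (2 * r + 1) * ι a
      = ι h₁ * ((T * ι h₂ * T) * (T ^ (2 * r) * ι a)) := by rw [pow_succ']; simp only [mul_assoc]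
    _ = ι h₁ * ((T * ι h₂ * T * ι a) * T ^ (2 * r)) := by
        rw [pow_even d]; simp only [mul_assoc]
    _ = ι h₁ * ((ι a * (T * ι h₂ * T)) * T ^ (2 * r)) := by rw [d.r7]
    _ = _ := by rw [pow_succ']; simp only [mul_assoc]

lemma stepC_zero (d : Dat ι T T' m C) (h₁ h₂ : H) (i : Fin l)
    (hn : h₂ ∈ Submonoid.closure (Set.range m)) :
    nf ι T T' h₁ h₂ 0 * C i = nf ι T T' h₁ (h₂ * m i) 0 := by
  obtain ⟨γ, h1, h2⟩ := gamma d hn
  have h3 : γ * C i * T = T * ι (h₂ * m i) := by
    rw [mul_assoc, d.r4, ← mul_assoc, h1, map_mul, mul_assoc]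
  rw [nf, nf, gamma_eq d h1, gamma_eq d h3, mul_assoc]

lemma stepC_odd (d : Dat ι T T' m C) (h₁ h₂ : H) (i : Fin l) (r : ℕ) :
    nf ι T T' h₁ h₂ (2 * r + 1) * C i = nf ι T T' (h₁ * m i) h₂ (2 * r + 1) := by
  rw [nf, nf, map_mul]
  calc ι h₁ * T * ι h₂ * T ^ (2 * r) * C i
      = ι h₁ * T * ι h₂ * (T ^ (2 * r) * C i) := by simp only [mul_assoc]
    _ = ι h₁ * T * ι h₂ * (C i * T ^ (2 * r)) := by rw [pow_evenC d]
    _ = ι h₁ * T * (ι h₂ * C i) * T ^ (2 * r) := by simp only [mul_assoc]
    _ = ι h₁ * T * (C i * ι h₂) * T ^ (2 * r) := by rw [d.r3]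
    _ = ι h₁ * (T * C i) * ι h₂ * T ^ (2 * r) := by simp only [mul_assoc]
    _ = _ := by rw [d.r5]; simp only [mul_assoc]

lemma stepC_even (d : Dat ι T T' m C) (h₁ h₂ : H) (i : Fin l) (r : ℕ) :
    nf ι T T' h₁ h₂ (2 * r + 1 + 1) * C i = nf ι T T' h₁ (h₂ * m i) (2 * r + 1 + 1) := by
  rw [nf, nf, map_mul]
  calc ι h₁ * T * ι h₂ * T ^ (2 * r + 1) * C i
      = ι h₁ * T * ι h₂ * (T ^ (2 * r) * (T * C i)) := by rw [pow_succ]; simp only [mul_assoc]
    _ = ι h₁ * T * ι h₂ * ((T ^ (2 * r) * ι (m i)) * T) := by rw [d.r5]; simp only [mul_assoc]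
    _ = _ := by rw [pow_even d, pow_succ]; simp only [mul_assoc]

end core

section letters

variable {S : Type} [Monoid S] {m : ℕ} (A : Fin (m + m) × Bool → S)
  (hA : ∀ c, A c * A (c.1, !c.2) = 1)
  (hAA : ∀ i j : Fin m, A (finSumFinEquiv (Sum.inl i), true) * A (finSumFinEquiv (Sum.inr j), true)
    = A (finSumFinEquiv (Sum.inr j), true) * A (finSumFinEquiv (Sum.inl i), true))

/-- the unit of a letter -/
def U (j : Fin (m + m)) : Sˣ := ⟨A (j, true), A (j, false), hA (j, true), hA (j, false)⟩

lemma comm_units {m : ℕ} {S : Type} [Group S] (u v : Fin m → S)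
    (h : ∀ i j, Commute (u i) (v j)) (a b : FreeGroup (Fin m)) :
    Commute (FreeGroup.lift u a) (FreeGroup.lift v b) := by
  have h1 : ∀ i, Commute (u i) (FreeGroup.lift v b) := by
    intro i
    induction b using FreeGroup.induction_on with
    | C1 => rw [map_one]; exact Commute.one_right _
    | of j => rw [FreeGroup.lift_apply_of]; exact h i j
    | inv_of j ih => rw [map_inv]; exact ih.inv_right
    | mul x y hx hy => rw [map_mul]; exact hx.mul_right hy
  induction a using FreeGroup.induction_on with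
  | C1 => rw [map_one]; exact Commute.one_left _
  | of j => rw [FreeGroup.lift_apply_of]; exact h1 j
  | inv_of j ih => rw [map_inv]; exact ih.inv_left
  | mul x y hx hy => rw [map_mul]; exact hx.mul_left hy

include hAA in
lemma comm12 (a b : FreeGroup (Fin m)) :
    Commute (FreeGroup.lift (fun i => U A hA (finSumFinEquiv (Sum.inl i))) a)
      (FreeGroup.lift (fun i => U A hA (finSumFinEquiv (Sum.inr i))) b) := by
  apply comm_units
  intro i j
  apply Units.ext
  exact hAA i j

/-- the map from the direct product of the free groups -/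
def io : FreeGroup (Fin m) × FreeGroup (Fin m) →* S :=
  (Units.coeHom S).comp (MonoidHom.noncommCoprod
    (FreeGroup.lift (fun i => U A hA (finSumFinEquiv (Sum.inl i))))
    (FreeGroup.lift (fun i => U A hA (finSumFinEquiv (Sum.inr i)))) (comm12 A hA hAA))

lemma io_letter (c : Fin (m + m) × Bool) : io A hA hAA (lt (yy m) c) = A c := by
  obtain ⟨j, b⟩ := c
  obtain ⟨s, rfl⟩ := finSumFinEquiv.surjective j
  have hy : yy m (finSumFinEquiv s) = Sum.elim (fun i => (FreeGroup.of i, 1))
      (fun i => (1, FreeGroup.of i)) s := by rw [yy, Equiv.symm_apply_apply]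
  rcases s with i | i <;> cases b
  all_goals
    simp only [lt, hy, cond_true, cond_false, Sum.elim_inl, Sum.elim_inr]
    simp only [io, MonoidHom.comp_apply, MonoidHom.noncommCoprod_apply, Prod.inv_mk, map_inv,
      FreeGroup.lift_apply_of, map_one, inv_one, mul_one, one_mul, Units.coeHom_apply]
    rfl

lemma io_word (w : Wd (m + m)) : io A hA hAA (ev (yy m) w) = (w.map A).prod := by
  induction w with
  | nil => rw [ev_nil, map_one]; rfl
  | cons c w ih => rw [ev_cons, map_mul, ih, io_letter, List.map_cons, List.prod_cons]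

lemma ev_surj (h : FreeGroup (Fin m) × FreeGroup (Fin m)) : ∃ w, ev (yy m) w = h := by
  obtain ⟨g, rfl⟩ := yy_surj m h
  exact ⟨g.toWord, by rw [ev, FreeGroup.mk_toWord]⟩

lemma comm_all {s : S} (h : ∀ c, s * A c = A c * s) (g : FreeGroup (Fin m) × FreeGroup (Fin m)) :
    s * io A hA hAA g = io A hA hAA g * s := by
  obtain ⟨w, rfl⟩ := ev_surj g
  rw [io_word]
  induction w with
  | nil => simp
  | cons c w ih => rw [List.map_cons, List.prod_cons, ← mul_assoc, h, mul_assoc, ih, mul_assoc]

lemma r7_all {T T' : S} (tt : T * T' = 1) (h6 : ∀ c, T * T * A c = A c * (T * T))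
    (h7 : ∀ c c', T * A c * T * A c' = A c' * (T * A c * T))
    (h h' : FreeGroup (Fin m) × FreeGroup (Fin m)) :
    T * io A hA hAA h * T * io A hA hAA h' = io A hA hAA h' * (T * io A hA hAA h * T) := by
  obtain ⟨w, rfl⟩ := ev_surj h
  have h6' := comm_all A hA hAA h6
  induction w with
  | nil => rw [ev_nil, map_one, mul_one]; exact h6' h'
  | cons c w ih =>
    rw [ev_cons, map_mul, io_letter]
    set ι := io A hA hAA
    set g := ev (yy m) w
    have h7' := comm_all A hA hAA (h7 c) h'
    have hsplit : (T * (A c * ι g) * T) * (T * T) = (T * A c * T) * (T * ι g * T) := by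
      calc (T * (A c * ι g) * T) * (T * T) = T * A c * (ι g * (T * T)) * T := by
            simp only [mul_assoc]
        _ = T * A c * (T * T * ι g) * T := by rw [h6']
        _ = _ := by simp only [mul_assoc]
    have hfin : (T * (A c * ι g) * T * ι h') * (T * T) =
        (ι h' * (T * (A c * ι g) * T)) * (T * T) := by
      calc (T * (A c * ι g) * T * ι h') * (T * T) =
          (T * (A c * ι g) * T) * (ι h' * (T * T)) := by simp only [mul_assoc]
        _ = (T * (A c * ι g) * T) * (T * T * ι h') := by rw [h6']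
        _ = ((T * (A c * ι g) * T) * (T * T)) * ι h' := by simp only [mul_assoc]
        _ = ((T * A c * T) * (T * ι g * T)) * ι h' := by rw [hsplit]
        _ = (T * A c * T) * ((T * ι g * T) * ι h') := by simp only [mul_assoc]
        _ = (T * A c * T) * (ι h' * (T * ι g * T)) := by rw [ih]
        _ = ((T * A c * T) * ι h') * (T * ι g * T) := by simp only [mul_assoc]
        _ = (ι h' * (T * A c * T)) * (T * ι g * T) := by rw [h7']
        _ = ι h' * ((T * A c * T) * (T * ι g * T)) := by simp only [mul_assoc]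
        _ = ι h' * ((T * (A c * ι g) * T) * (T * T)) := by rw [hsplit]
        _ = _ := by simp only [mul_assoc]
    have := congrArg (· * (T' * T')) hfin
    have htt : T * T * (T' * T') = 1 := by
      rw [mul_assoc, ← mul_assoc T T' T', tt, one_mul, tt]
    simpa only [mul_assoc _ (T * T) (T' * T'), htt, mul_one] using this

end letters

section group

variable {H : Type} [Group H]

/-- group elements of nonnegative level -/
def gg (h₁ h₂ : H) (n : ℕ) : Gr H := SemidirectProduct.inl (h₁, h₂) * z ^ n

lemma level_gg (h₁ h₂ : H) (n : ℕ) : level (gg h₁ h₂ n) = n := by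
  have h3 : level ((z : Gr H) ^ n) = n := by
    rw [z, ← map_pow, ← ofAdd_nsmul]
    simp [level]
  rw [gg, level_mul, h3]
  have : level (SemidirectProduct.inl (h₁, h₂) : Gr H) = 0 := rfl
  rw [this, zero_add]

lemma gg_inj {h₁ h₂ k₁ k₂ : H} {n n' : ℕ} (h : gg h₁ h₂ n = gg k₁ k₂ n') :
    h₁ = k₁ ∧ h₂ = k₂ ∧ n = n' := by
  have h1 := congrArg level h
  rw [level_gg, level_gg] at h1
  have h2 : n = n' := by exact_mod_cast h1
  subst h2
  have h3 : (SemidirectProduct.inl (h₁, h₂) : Gr H) = SemidirectProduct.inl (k₁, k₂) :=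
    mul_right_cancel h
  have h4 := SemidirectProduct.inl_injective h3
  rw [Prod.mk.injEq] at h4
  exact ⟨h4.1, h4.2, rfl⟩

lemma gg_z (h₁ h₂ : H) (n : ℕ) : gg h₁ h₂ n * z = gg h₁ h₂ (n + 1) := by
  rw [gg, gg, pow_succ, mul_assoc]

lemma z_even (r : ℕ) (p : H × H) : (z : Gr H) ^ (2 * r) * SemidirectProduct.inl p =
    SemidirectProduct.inl p * z ^ (2 * r) := by
  rw [pow_mul, pow_two]
  have h : Commute ((z : Gr H) * z) (SemidirectProduct.inl p) := by
    change z * z * SemidirectProduct.inl p = SemidirectProduct.inl p * (z * z)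
    rw [mul_assoc, z_inl, ← mul_assoc, z_inl, mul_assoc]
  exact (h.pow_left r).eq

lemma inl_comm (a b : H) : (SemidirectProduct.inl (1, b) : Gr H) * SemidirectProduct.inl (a, 1) =
    SemidirectProduct.inl (a, 1) * SemidirectProduct.inl (1, b) := by
  rw [← map_mul, ← map_mul]
  congr 1
  ext <;> simp

lemma z7 (a b : H) : (z : Gr H) * (SemidirectProduct.inl (a, 1) * (z *
    SemidirectProduct.inl (b, 1))) =
    SemidirectProduct.inl (b, 1) * (z * (SemidirectProduct.inl (a, 1) * z)) := by
  calc (z : Gr H) * (SemidirectProduct.inl (a, 1) * (z * SemidirectProduct.inl (b, 1))) =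
      (z * SemidirectProduct.inl (a, 1)) * (z * SemidirectProduct.inl (b, 1)) := by
        simp only [mul_assoc]
    _ = (SemidirectProduct.inl (1, a) * z) * (SemidirectProduct.inl (1, b) * z) := by
        rw [z_inl, z_inl]
    _ = SemidirectProduct.inl (1, a) * (z * SemidirectProduct.inl (1, b)) * z := by
        simp only [mul_assoc]
    _ = (SemidirectProduct.inl (1, a) * SemidirectProduct.inl (b, 1)) * z * z := by
        rw [z_inl]; simp only [mul_assoc]
    _ = SemidirectProduct.inl (b, 1) * ((SemidirectProduct.inl (1, a) * z) * z) := by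
        rw [inl_comm]; simp only [mul_assoc]
    _ = SemidirectProduct.inl (b, 1) * ((z * SemidirectProduct.inl (a, 1)) * z) := by
        rw [z_inl]
    _ = _ := by simp only [mul_assoc]

lemma gg_even (h₁ h₂ a b : H) (r : ℕ) : gg h₁ h₂ (2 * r) * SemidirectProduct.inl (a, b) =
    gg (h₁ * a) (h₂ * b) (2 * r) := by
  rw [gg, gg, mul_assoc, z_even, ← mul_assoc, ← map_mul, Prod.mk_mul_mk]

lemma gg_odd (h₁ h₂ a b : H) (r : ℕ) : gg h₁ h₂ (2 * r + 1) * SemidirectProduct.inl (a, b) =
    gg (h₁ * b) (h₂ * a) (2 * r + 1) := by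
  rw [gg, gg, mul_assoc, pow_succ, mul_assoc (z ^ (2 * r)), z_inl, ← mul_assoc (z ^ (2 * r)),
    z_even, mul_assoc, ← mul_assoc, ← map_mul, Prod.mk_mul_mk]

end group

section main

variable {m l : ℕ} (t : Fin l → FreeGroup (Fin m) × FreeGroup (Fin m)) {k : ℕ}
  (e : Idx (m + m) l ≃ Fin k)

/-- the generators -/
def xx : Fin k → Gr (FreeGroup (Fin m) × FreeGroup (Fin m)) := fun i => gen (yy m) t (e.symm i)

/-- the classes of the generators -/
def L (N : ℕ) (a : Idx (m + m) l) : IM (Rel (xx t e) N) := cls (Rel (xx t e) N) [(e a, true)]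

lemma cls_pos (N : ℕ) (u : List (Idx (m + m) l)) :
    cls (Rel (xx t e) N) (pos (u.map e)) = (u.map (L t e N)).prod := by
  induction u with
  | nil => exact cls_nil
  | cons a u ih =>
    rw [List.map_cons, pos_cons, cls_append, ih, List.map_cons, List.prod_cons]; rfl

lemma ev_pos' (u : List (Idx (m + m) l)) :
    ev (xx t e) (pos (u.map e)) = (u.map (gen (yy m) t)).prod := by
  induction u with
  | nil => exact ev_nil _
  | cons a u ih =>
    rw [List.map_cons, pos_cons, ev_append, ih, List.map_cons, List.prod_cons, ev_single]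
    simp [lt, xx]

lemma short {N : ℕ} (u v : List (Idx (m + m) l)) (hu : u.length ≤ N) (hv : v.length ≤ N)
    (h : (u.map (gen (yy m) t)).prod = (v.map (gen (yy m) t)).prod) :
    (u.map (L t e N)).prod = (v.map (L t e N)).prod := by
  rw [← cls_pos, ← cls_pos]
  apply eq_short
  · rwa [List.length_map]
  · rwa [List.length_map]
  · rw [ev_pos', ev_pos', h]

lemma val_A (w : Wd (m + m)) : ((w.map (Sum.inl : _ → Idx (m + m) l)).map (gen (yy m) t)).prod =
    SemidirectProduct.inl (ev (yy m) w, 1) := by
  induction w with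
  | nil => rw [ev_nil]; rfl
  | cons c w ih =>
    rw [List.map_cons, List.map_cons, List.prod_cons, ih, ev_cons]
    change SemidirectProduct.inl (lt (yy m) c, 1) * _ = _
    rw [← map_mul, Prod.mk_mul_mk, one_mul]

lemma genA (c : Fin (m + m) × Bool) : gen (yy m) t (Sum.inl c) =
    SemidirectProduct.inl (lt (yy m) c, 1) := rfl

lemma genC (i : Fin l) : gen (yy m) t (Sum.inr (Sum.inl i)) =
    SemidirectProduct.inl (1, t i) := rfl

lemma genT : gen (yy m) t (Sum.inr (Sum.inr ())) = z := rfl

lemma nf_exists {N : ℕ} {ι : FreeGroup (Fin m) × FreeGroup (Fin m) →* IM (Rel (xx t e) N)}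
    {T' : IM (Rel (xx t e) N)}
    (d : Dat ι (L t e N (Sum.inr (Sum.inr ()))) T' t (fun i => L t e N (Sum.inr (Sum.inl i))))
    (hι : ∀ c, ι (lt (yy m) c) = L t e N (Sum.inl c)) (u : List (Idx (m + m) l)) :
    ∃ h₁ h₂ n, (u.map (gen (yy m) t)).prod = gg h₁ h₂ n ∧
      (n = 0 → h₂ ∈ Submonoid.closure (Set.range t)) ∧
      (u.map (L t e N)).prod = nf ι (L t e N (Sum.inr (Sum.inr ()))) T' h₁ h₂ n := by
  induction u using List.reverseRecOn with
  | nil =>
    refine ⟨1, 1, 0, ?_, fun _ => one_mem _, ?_⟩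
    · simp [gg, Prod.mk_one_one]
    · simp [nf, d.tt]
  | append_singleton u a ih =>
    obtain ⟨h₁, h₂, n, e1, e2, e3⟩ := ih
    rw [List.map_append, List.map_append, List.prod_append, List.prod_append, e1, e3,
      List.map_singleton, List.map_singleton, List.prod_singleton, List.prod_singleton]
    have hn : n = 0 ∨ (∃ r, n = 2 * r + 1) ∨ (∃ r, n = 2 * r + 1 + 1) := by
      rcases Nat.even_or_odd' n with ⟨r, h | h⟩
      · rcases Nat.eq_zero_or_pos r with h' | h'
        · left; omega
        · right; right; exact ⟨r - 1, by omega⟩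
      · right; left; exact ⟨r, h⟩
    rcases a with c | i | v
    · rw [genA, ← hι]
      rcases hn with rfl | ⟨r, rfl⟩ | ⟨r, rfl⟩
      · refine ⟨h₁ * lt (yy m) c, h₂, 0, ?_, e2, stepA_zero d _ _ _ (e2 rfl)⟩
        have := gg_even h₁ h₂ (lt (yy m) c) 1 0
        rwa [mul_one, mul_zero] at this
      · refine ⟨h₁, h₂ * lt (yy m) c, 2 * r + 1, ?_, by omega, stepA_odd d _ _ _ _⟩
        rw [gg_odd, mul_one]
      · refine ⟨h₁ * lt (yy m) c, h₂, 2 * r + 1 + 1, ?_, by omega, stepA_even d _ _ _ _⟩
        have := gg_even h₁ h₂ (lt (yy m) c) 1 (r + 1)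
        rw [mul_one] at this
        exact this
    · rw [genC]
      rcases hn with rfl | ⟨r, rfl⟩ | ⟨r, rfl⟩
      · refine ⟨h₁, h₂ * t i, 0, ?_, fun _ => mul_mem (e2 rfl) (Submonoid.subset_closure ⟨i, rfl⟩),
          stepC_zero d _ _ _ (e2 rfl)⟩
        have := gg_even h₁ h₂ 1 (t i) 0
        rwa [mul_one, mul_zero] at this
      · refine ⟨h₁ * t i, h₂, 2 * r + 1, ?_, by omega, stepC_odd d _ _ _ _⟩
        rw [gg_odd, mul_one]
      · refine ⟨h₁, h₂ * t i, 2 * r + 1 + 1, ?_, by omega, stepC_even d _ _ _ _⟩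
        have := gg_even h₁ h₂ 1 (t i) (r + 1)
        rw [mul_one] at this
        exact this
    · refine ⟨h₁, h₂, n + 1, ?_, by omega, stepT d _ _ _ e2⟩
      exact gg_z h₁ h₂ n

/-- Positive words with equal values are equal in the inverse monoid. -/
lemma exists_N : ∃ N, 1 ≤ N ∧ ∀ u v : List (Fin k), ev (xx t e) (pos u) = ev (xx t e) (pos v) →
    cls (Rel (xx t e) N) (pos u) = cls (Rel (xx t e) N) (pos v) := by
  choose μ hμ using fun i => ev_surj (m := m) (t i)
  let N : ℕ := (∑ i, (μ i).length) + 4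
  have hN4 : 4 ≤ N := Nat.le_add_left _ _
  have hNμ : ∀ i, (μ i).length + 1 ≤ N := by
    intro i
    have : (μ i).length ≤ ∑ i, (μ i).length :=
      Finset.single_le_sum (f := fun i => (μ i).length) (fun _ _ => Nat.zero_le _)
        (Finset.mem_univ i)
    omega
  refine ⟨N, by omega, ?_⟩
  let A : Fin (m + m) × Bool → IM (Rel (xx t e) N) := fun c => L t e N (Sum.inl c)
  let C : Fin l → IM (Rel (xx t e) N) := fun i => L t e N (Sum.inr (Sum.inl i))
  let T : IM (Rel (xx t e) N) := L t e N (Sum.inr (Sum.inr ()))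
  let T' : IM (Rel (xx t e) N) := cls (Rel (xx t e) N) [(e (Sum.inr (Sum.inr ())), false)]
  have hA : ∀ c, A c * A (c.1, !c.2) = 1 := by
    intro c
    have := short t e (N := N) [Sum.inl c, Sum.inl (c.1, !c.2)] []
      (by simp only [List.length_cons, List.length_nil]; omega) (Nat.zero_le _) (by
        simp only [List.map_cons, List.map_nil, List.prod_cons, List.prod_nil, mul_one, genA,
          lt_not]
        rw [← map_mul, Prod.mk_mul_mk, mul_inv_cancel, one_mul, Prod.mk_one_one, map_one])
    simpa only [List.map_cons, List.map_nil, List.prod_cons, List.prod_nil, mul_one] using this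
  have hAA : ∀ i j : Fin m, A (finSumFinEquiv (Sum.inl i), true) *
      A (finSumFinEquiv (Sum.inr j), true) = A (finSumFinEquiv (Sum.inr j), true) *
        A (finSumFinEquiv (Sum.inl i), true) := by
    intro i j
    have := short t e (N := N) [Sum.inl (finSumFinEquiv (Sum.inl i), true),
      Sum.inl (finSumFinEquiv (Sum.inr j), true)] [Sum.inl (finSumFinEquiv (Sum.inr j), true),
      Sum.inl (finSumFinEquiv (Sum.inl i), true)]
      (by simp only [List.length_cons, List.length_nil]; omega)
      (by simp only [List.length_cons, List.length_nil]; omega) (by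
        simp only [List.map_cons, List.map_nil, List.prod_cons, List.prod_nil, mul_one, genA]
        rw [← map_mul, ← map_mul, Prod.mk_mul_mk, Prod.mk_mul_mk]
        simp only [lt, yy, Equiv.symm_apply_apply, cond_true, Sum.elim_inl, Sum.elim_inr,
          Prod.mk_mul_mk, mul_one, one_mul])
    simpa only [List.map_cons, List.map_nil, List.prod_cons, List.prod_nil, mul_one] using this
  have h3 : ∀ i c, C i * A c = A c * C i := by
    intro i c
    have := short t e (N := N) [Sum.inr (Sum.inl i), Sum.inl c] [Sum.inl c, Sum.inr (Sum.inl i)]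
      (by simp only [List.length_cons, List.length_nil]; omega)
      (by simp only [List.length_cons, List.length_nil]; omega) (by
        simp only [List.map_cons, List.map_nil, List.prod_cons, List.prod_nil, mul_one, genA, genC]
        exact inl_comm _ _)
    simpa only [List.map_cons, List.map_nil, List.prod_cons, List.prod_nil, mul_one] using this
  have h6 : ∀ c, T * T * A c = A c * (T * T) := by
    intro c
    have := short t e (N := N) [Sum.inr (Sum.inr ()), Sum.inr (Sum.inr ()), Sum.inl c]
      [Sum.inl c, Sum.inr (Sum.inr ()), Sum.inr (Sum.inr ())]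
      (by simp only [List.length_cons, List.length_nil]; omega)
      (by simp only [List.length_cons, List.length_nil]; omega) (by
        simp only [List.map_cons, List.map_nil, List.prod_cons, List.prod_nil, mul_one, genA, genT]
        rw [z_inl, ← mul_assoc, z_inl, mul_assoc])
    simpa only [List.map_cons, List.map_nil, List.prod_cons, List.prod_nil, mul_one,
      mul_assoc] using this
  have h7 : ∀ c c', T * A c * T * A c' = A c' * (T * A c * T) := by
    intro c c'
    have := short t e (N := N) [Sum.inr (Sum.inr ()), Sum.inl c, Sum.inr (Sum.inr ()), Sum.inl c']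
      [Sum.inl c', Sum.inr (Sum.inr ()), Sum.inl c, Sum.inr (Sum.inr ())]
      (by simp only [List.length_cons, List.length_nil]; omega)
      (by simp only [List.length_cons, List.length_nil]; omega) (by
        simp only [List.map_cons, List.map_nil, List.prod_cons, List.prod_nil, mul_one, genA, genT]
        exact z7 _ _)
    simpa only [List.map_cons, List.map_nil, List.prod_cons, List.prod_nil, mul_one,
      mul_assoc] using this
  have hprod : ∀ w : Wd (m + m), ((w.map (Sum.inl : _ → Idx (m + m) l)).map (L t e N)).prod =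
      io A hA hAA (ev (yy m) w) := by
    intro w
    rw [io_word, List.map_map]; rfl
  have h4 : ∀ i, C i * T = T * io A hA hAA (t i) := by
    intro i
    have := short t e (N := N) [Sum.inr (Sum.inl i), Sum.inr (Sum.inr ())]
      (Sum.inr (Sum.inr ()) :: (μ i).map Sum.inl)
      (by simp only [List.length_cons, List.length_nil]; omega)
      (by simp only [List.length_cons, List.length_map]; exact hNμ i) (by
        simp only [List.map_cons, List.map_nil, List.prod_cons, List.prod_nil, mul_one, genC, genT]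
        rw [val_A, hμ, z_inl])
    simp only [List.map_cons, List.map_nil, List.prod_cons, List.prod_nil, mul_one] at this
    rw [hprod, hμ] at this
    exact this
  have h5 : ∀ i, T * C i = io A hA hAA (t i) * T := by
    intro i
    have := short t e (N := N) [Sum.inr (Sum.inr ()), Sum.inr (Sum.inl i)]
      ((μ i).map Sum.inl ++ [Sum.inr (Sum.inr ())])
      (by simp only [List.length_cons, List.length_nil]; omega)
      (by simp only [List.length_append, List.length_cons, List.length_nil, List.length_map]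
          exact hNμ i) (by
        rw [List.map_append, List.prod_append, val_A, hμ]
        simp only [List.map_cons, List.map_nil, List.prod_cons, List.prod_nil, mul_one, genC, genT]
        rw [z_inl])
    rw [List.map_append, List.prod_append, hprod, hμ] at this
    simpa only [List.map_cons, List.map_nil, List.prod_cons, List.prod_nil, mul_one] using this
  have htt : T * T' = 1 := by
    change cls _ _ * cls _ _ = 1
    rw [← cls_append]
    have h1N : 1 ≤ N := by omega
    exact vrel ⟨[e (Sum.inr (Sum.inr ()))], [e (Sum.inr (Sum.inr ()))], h1N, h1N, rfl, rfl⟩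
  have d : Dat (io A hA hAA) T T' t C := {
    tt := htt
    r3 := fun i h => comm_all A hA hAA (h3 i) h
    r4 := h4
    r5 := h5
    r6 := fun h => comm_all A hA hAA h6 h
    r7 := fun h h' => r7_all A hA hAA htt h6 h7 h h' }
  have hι : ∀ c, io A hA hAA (lt (yy m) c) = L t e N (Sum.inl c) := io_letter A hA hAA
  intro u v huv
  obtain ⟨u, rfl⟩ : ∃ u' : List (Idx (m + m) l), u = u'.map e := ⟨u.map e.symm, by simp⟩
  obtain ⟨v, rfl⟩ : ∃ v' : List (Idx (m + m) l), v = v'.map e := ⟨v.map e.symm, by simp⟩
  rw [ev_pos', ev_pos'] at huv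
  rw [cls_pos, cls_pos]
  obtain ⟨a₁, a₂, n, q1, -, q3⟩ := nf_exists t e d hι u
  obtain ⟨b₁, b₂, n', q4, -, q6⟩ := nf_exists t e d hι v
  rw [q1, q4] at huv
  obtain ⟨rfl, rfl, rfl⟩ := gg_inj huv
  rw [q3, q6]

end main

/-- The answer to the question. -/
theorem result : ∃ (k : ℕ) (R : Set (List (Fin k × Bool))), R.Finite ∧
    IsInverseMonoid (IM R) ∧ EUnitary (IM R) ∧
    (∀ a b : IM R, RightUnit a → RightUnit b →
      ∃ p q : IM R, RightUnit p ∧ RightUnit q ∧ Sig (a * p) (b * q)) ∧
    ComputablePred (fun w : List (Fin k × Bool) × List (Fin k × Bool) =>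
      Sig (cls R w.1) (cls R w.2)) ∧
    ¬ ComputablePred (fun w : List (Fin k × Bool) × List (Fin k × Bool) =>
      cls R w.1 = cls R w.2) := by
  obtain ⟨m, l, t, W, hW, hu⟩ := mikhailova
  obtain ⟨k, ⟨e⟩⟩ := Finite.exists_equiv_fin (Idx (m + m) l)
  obtain ⟨N, hN, hyp⟩ := exists_N t e
  have hrange : Set.range (xx t e) = Set.range (gen (yy m) t) := by
    ext g
    constructor
    · rintro ⟨i, rfl⟩; exact ⟨_, rfl⟩
    · rintro ⟨i, rfl⟩; exact ⟨e i, by simp [xx]⟩
  have hPM : PM (xx t e) = Pp (Submonoid.closure (Set.range t)) := by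
    rw [PM, hrange, closure_gen (yy m) t (yy_surj m)]
  have hcom : ∀ ls : List (Gr (FreeGroup (Fin m) × FreeGroup (Fin m))),
      ∃ q ∈ PM (xx t e), ∀ g ∈ ls, g * q ∈ PM (xx t e) := by
    intro ls
    have h3 : ∀ n : ℕ, level ((z : Gr (FreeGroup (Fin m) × FreeGroup (Fin m))) ^ n) = n := by
      intro n
      rw [z, ← map_pow, ← ofAdd_nsmul]
      simp [level]
    rw [hPM]
    obtain ⟨B, hB⟩ : ∃ B : ℕ, ∀ g ∈ ls, -(B : ℤ) < level g := by
      induction ls with
      | nil => exact ⟨0, by simp⟩
      | cons a ls ih =>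
        obtain ⟨B, hB⟩ := ih
        refine ⟨B + (level a).natAbs + 1, fun g hg => ?_⟩
        rcases List.mem_cons.1 hg with rfl | hg
        · push_cast; have := neg_abs_le (level g); omega
        · have := hB g hg; push_cast; have := abs_nonneg (level a); omega
    refine ⟨z ^ (B + 1), Or.inl (by rw [h3]; push_cast; omega), fun g hg => Or.inl ?_⟩
    rw [level_mul, h3]
    have := hB g hg
    push_cast; omega
  refine ⟨k, Rel (xx t e) N, rel_finite _ _, isInverse _, eUnitary _ hN hyp hcom, ?_, ?_, ?_⟩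
  · intro a b ha hb
    obtain ⟨w, rfl⟩ := cls_surj a
    obtain ⟨w', rfl⟩ := cls_surj b
    have h1 := mem_of_rightUnit _ ha
    have h2 := mem_of_rightUnit _ hb
    obtain ⟨p, hp, q, hq, hpq⟩ := reversible (Submonoid.closure (Set.range t)) _ _
      (hPM ▸ h1) (hPM ▸ h2)
    rw [← hPM] at hp hq
    obtain ⟨u, rfl⟩ := exists_pos _ hp
    obtain ⟨v, rfl⟩ := exists_pos _ hq
    refine ⟨_, _, rightUnit_pos _ hN u, rightUnit_pos _ hN v, ?_⟩
    rw [← cls_append, ← cls_append, sig_iff _ hN hyp hcom, ev_append, ev_append, hpq]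
  · have h1 := wp_decidable (yy m) t e (yy_surj m) (yy_wp m)
    have h2 : Computable (fun w : Wd k × Wd k => w.1 ++ FreeGroup.invRev w.2) := by
      apply Primrec.to_comp
      refine Primrec.list_append.comp Primrec.fst ?_
      have h3 : Primrec (fun w : Wd k => FreeGroup.invRev w) := by
        have h4 : Primrec (fun w : Wd k => (w.map (fun c => (c.1, !c.2))).reverse) := by
          refine Primrec.list_reverse.comp (Primrec.list_map Primrec.id ?_)
          exact Primrec.pair (Primrec.fst.comp Primrec.snd)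
            (Primrec.not.comp (Primrec.snd.comp Primrec.snd))
        exact h4
      exact h3.comp Primrec.snd
    refine (cp_comp h1 h2).of_eq ?_
    rintro ⟨w, w'⟩
    change ev (xx t e) (w ++ FreeGroup.invRev w') = 1 ↔ _
    rw [sig_iff _ hN hyp hcom, ev_append, ev_invRev, mul_inv_eq_one]
  · intro hc
    apply hu
    let a : Fin m × Bool → Fin k := fun c => e (Sum.inl (finSumFinEquiv (Sum.inl c.1), c.2))
    let zz : Fin k := e (Sum.inr (Sum.inr ()))
    let V : ℕ → Wd k := fun n => pos (zz :: (W n).map a) ++ [(zz, false)]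
    have hinv : Primrec (fun w : Wd k => FreeGroup.invRev w) := by
      have h4 : Primrec (fun w : Wd k => (w.map (fun c => (c.1, !c.2))).reverse) := by
        refine Primrec.list_reverse.comp (Primrec.list_map Primrec.id ?_)
        exact Primrec.pair (Primrec.fst.comp Primrec.snd)
          (Primrec.not.comp (Primrec.snd.comp Primrec.snd))
      exact h4
    have hV : Computable V := by
      have ha : Primrec (fun c : Fin m × Bool => (a c, true)) := Primrec.dom_finite _
      have h1 : Primrec (fun w : Wd m => w.map (fun c => (a c, true))) :=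
        Primrec.list_map Primrec.id (ha.comp Primrec.snd)
      have h2 : Primrec (fun w : Wd m =>
          (((zz, true) :: w.map (fun c => (a c, true))) ++ [(zz, false)] : Wd k)) :=
        Primrec.list_append.comp (Primrec.list_cons.comp (Primrec.const _) h1) (Primrec.const _)
      refine (h2.to_comp.comp hW).of_eq ?_
      intro n
      simp [V, pos, Function.comp_def]
    have hV2 : Computable (fun n => (V n ++ FreeGroup.invRev (V n), ([] : Wd k))) :=
      Computable.pair ((Primrec.list_append.to_comp).comp hV (hinv.to_comp.comp hV))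
        (Computable.const _)
    refine (cp_comp hc hV2).of_eq ?_
    intro n
    change cls (Rel (xx t e) N) (V n ++ FreeGroup.invRev (V n)) = cls (Rel (xx t e) N) [] ↔ _
    rw [cls_append, cls_nil, ← rightUnit_iff, rightUnit_iff_mem _ hN hyp, hPM]
    have hval : ∀ w : Wd m, ev (xx t e) (pos (w.map a)) =
        SemidirectProduct.inl ((FreeGroup.mk w, 1), 1) := by
      intro w
      induction w with
      | nil => rfl
      | cons c w ih =>
        rw [List.map_cons, pos_cons, ev_append, ih, ev_single, mk_cons c w]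
        have h2 : lt (xx t e) (a c, true) = SemidirectProduct.inl ((FreeGroup.mk [c], 1), 1) := by
          obtain ⟨i, b⟩ := c
          simp only [lt, xx, a, cond_true, Equiv.symm_apply_apply, gen, yy, Sum.elim_inl]
          cases b
          · rfl
          · rfl
        rw [h2, ← map_mul]
        rfl
    have hval2 : ev (xx t e) (pos (zz :: (W n).map a) ++ [(zz, false)]) =
        SemidirectProduct.inl (1, (FreeGroup.mk (W n), 1)) := by
      rw [pos_cons, ev_append, ev_append, hval, ev_single, ev_single]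
      simp only [lt, xx, zz, cond_true, cond_false, Equiv.symm_apply_apply, gen]
      rw [z_conj]
    rw [hval2]
    constructor
    · rintro (h | ⟨-, h⟩)
      · exact absurd h (lt_irrefl _)
      · exact h
    · intro h
      exact Or.inr ⟨rfl, h⟩

end Pool.Agent.Results.MP_ff4305_al.Undecidable
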